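import Mathlib

/-!
# The total number of 2-hooks over `t`-regular partitions is monotone in `t` for `t ≥ 3`

Let `P_t` be the generating function of the `t`-regular partitions.  Then the generating function of
the 2-hook totals is `P_t * C_t` where `C_t = 2 ∑ q^(2j) - ∑_j e_(t,j)` and
`e_(t,j) = q^(t(2j-1)) + 2 q^(2tj) - q^(2tj-1) - q^(2tj+1)`.  The proof:
* `C_t` has nonnegative coefficients for even `t`,
* `P_(t+1) - P_t` has nonnegative coefficients (Glaisher),
* `P_s * (e_(t,j) - e_(t+1,j))` has nonnegative coefficients for `s = t, t + 1`.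
For even `t` use `P_(t+1) C_(t+1) - P_t C_t = C_t (P_(t+1) - P_t) + P_(t+1) (C_(t+1) - C_t)`, and for odd
`t` use `C_(t+1) (P_(t+1) - P_t) + P_t (C_(t+1) - C_t)`.
-/

set_option autoImplicit false

namespace Pool.Agent.Results.MP_6996b5_co.HookMonotone

open Finset PowerSeries

/-- The length of the row with index `i` of the Young diagram of the partition `p`
(rows are indexed from `0`; it is `0` when `p` has at most `i` parts). -/
def row {n : ℕ} (p : n.Partition) (i : ℕ) : ℕ := (p.parts.sort (· ≥ ·)).getD i 0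

/-- The length of the column with index `j` (from `0`) of the Young diagram of `p`:
the number of the parts greater than `j`. -/
def col {n : ℕ} (p : n.Partition) (j : ℕ) : ℕ := p.parts.countP (fun x => j < x)

/-- The number of cells of the Young diagram of `p` with the hook length `k`. A cell is a pair
`(i, j)` with `j < row p i`, and its hook length is arm plus leg plus one. -/
def hookCount {n : ℕ} (k : ℕ) (p : n.Partition) : ℕ :=
  #{c ∈ range n ×ˢ range n | c.2 < row p c.1 ∧
    ((row p c.1 : ℤ) - (c.2 + 1)) + ((col p c.2 : ℤ) - (c.1 + 1)) + 1 = k}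

/-- The total number of hooks of length `k` in all `t`-regular partitions of `n`. -/
def b (t k n : ℕ) : ℕ := ∑ p ∈ Nat.Partition.restricted n (fun x => ¬ t ∣ x), hookCount k p

section shape

lemma sorted_duality (L : List ℕ) (hL : L.Pairwise (· ≥ ·)) (i j : ℕ) :
    j < L.getD i 0 ↔ i < L.countP (fun x => j < x) := by
  induction L generalizing i with
  | nil => simp
  | cons a L ih =>
    rw [List.pairwise_cons] at hL
    obtain ⟨ha, hL⟩ := hL
    by_cases hj : j < a
    · rw [List.countP_cons_of_pos (by simpa using hj)]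
      cases i with
      | zero => simp [hj]
      | succ i => simpa using ih hL i
    · rw [List.countP_cons_of_neg (by simpa using hj)]
      have h0 : L.countP (fun x => decide (j < x)) = 0 := by
        rw [List.countP_eq_zero]
        intro x hx
        have := ha x hx
        simp; omega
      rw [h0]
      cases i with
      | zero => simp; omega
      | succ i =>
        have := ih hL i
        rw [h0] at this
        simpa using this

variable {n : ℕ} (p : n.Partition)

lemma row_col (i j : ℕ) : j < row p i ↔ i < col p j := by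
  unfold row col
  have h := sorted_duality (p.parts.sort (· ≥ ·)) (Multiset.pairwise_sort _ _) i j
  rw [h]
  conv_rhs => rw [← Multiset.sort_eq p.parts (· ≥ ·)]
  rw [Multiset.coe_countP]

lemma col_succ (j : ℕ) : col p j = col p (j + 1) + p.parts.count (j + 1) := by
  unfold col
  rw [Multiset.count]
  induction p.parts using Multiset.induction_on with
  | empty => simp
  | cons a s ih =>
    rw [Multiset.countP_cons, Multiset.countP_cons, Multiset.countP_cons, ih]
    split_ifs <;> omega

lemma card_le : p.parts.card ≤ n := by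
  have h := Multiset.card_nsmul_le_sum (s := p.parts) (a := 1) (fun x hx => p.parts_pos hx)
  rw [p.parts_sum] at h
  simpa using h

lemma col_le (j : ℕ) : col p j ≤ n := le_trans (Multiset.countP_le_card _ _) (card_le p)

lemma row_le (i : ℕ) : row p i ≤ n := by
  by_contra h
  push Not at h
  have h1 := (row_col p i n).1 h
  have h2 : 0 < col p n := by omega
  unfold col at h2
  rw [Multiset.countP_pos] at h2
  obtain ⟨x, hx, hx'⟩ := h2
  have := Nat.Partition.le_of_mem_parts hx
  omega

lemma hookCount_two : hookCount 2 p = #{a ∈ Icc 2 n | a ∈ p.parts ∧ a - 1 ∉ p.parts} +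
    #{a ∈ Icc 1 n | 2 ≤ p.parts.count a} := by
  unfold hookCount
  rw [← Finset.card_filter_add_card_filter_not (fun c : ℕ × ℕ => row p c.1 = c.2 + 2)]
  congr 1
  · apply Finset.card_nbij' (fun c => c.2 + 2) (fun a => (col p (a - 1) - 1, a - 2))
    · rintro ⟨i, j⟩ h
      simp only [coe_filter, mem_filter, mem_product, mem_range, Set.mem_ofPred_eq, mem_Icc] at h ⊢
      obtain ⟨⟨⟨hi, hj⟩, h1, h2⟩, h3⟩ := h
      have a1 := (row_col p i (j + 1)).1 (by omega)
      have a2 := (not_congr (row_col p i (j + 2))).1 (by omega)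
      have c1 := col_succ p j
      have c2 := col_succ p (j + 1)
      rw [show j + 1 + 1 = j + 2 by omega] at c2
      have l := row_le p i
      have e : (col p j : ℤ) = i + 1 := by rw [h3] at h2; push_cast at h2; linarith
      refine ⟨⟨by omega, by omega⟩, ?_, ?_⟩
      · rw [← Multiset.count_pos]; omega
      · rw [← Multiset.count_eq_zero]
        show Multiset.count (j + 2 - 1) p.parts = 0
        rw [show j + 2 - 1 = j + 1 by omega]; omega
    · intro a h
      simp only [coe_filter, mem_filter, mem_product, mem_range, Set.mem_ofPred_eq, mem_Icc] at h ⊢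
      obtain ⟨⟨h1, h2⟩, h3, h4⟩ := h
      rw [← Multiset.count_pos] at h3
      rw [← Multiset.count_eq_zero] at h4
      obtain ⟨j, rfl⟩ : ∃ j, a = j + 2 := ⟨a - 2, by omega⟩
      rw [show j + 2 - 1 = j + 1 by omega] at *
      rw [show j + 2 - 2 = j by omega] at *
      have c1 := col_succ p j
      have c2 := col_succ p (j + 1)
      have l := col_le p (j + 1)
      rw [show j + 1 + 1 = j + 2 by omega] at c2
      have r1 := (row_col p (col p (j + 1) - 1) (j + 1)).2 (by omega)
      have r2 := (not_congr (row_col p (col p (j + 1) - 1) (j + 2))).2 (by omega)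
      have r3 : row p (col p (j + 1) - 1) = j + 2 := by omega
      refine ⟨⟨⟨by omega, by omega⟩, by omega, ?_⟩, r3⟩
      rw [r3]; push_cast
      have : ((col p (j + 1) - 1 : ℕ) : ℤ) = col p (j + 1) - 1 := by
        rw [Nat.cast_sub (by omega)]; simp
      rw [this, show col p j = col p (j + 1) by omega]; ring
    · rintro ⟨i, j⟩ h
      simp only [coe_filter, mem_filter, mem_product, mem_range, Set.mem_ofPred_eq, mem_Icc] at h ⊢
      obtain ⟨⟨⟨hi, hj⟩, h1, h2⟩, h3⟩ := h
      have a1 := (row_col p i (j + 1)).1 (by omega)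
      have c1 := col_succ p j
      have e : (col p j : ℤ) = i + 1 := by rw [h3] at h2; push_cast at h2; linarith
      rw [show j + 2 - 1 = j + 1 by omega, show j + 2 - 2 = j by omega]
      rw [show col p (j + 1) = i + 1 by omega]
      simp
    · intro a h
      simp only [coe_filter, mem_filter, mem_product, mem_range, Set.mem_ofPred_eq, mem_Icc] at h ⊢
      omega
  · apply Finset.card_nbij' (fun c => c.2 + 1) (fun a => (col p (a - 1) - 2, a - 1))
    · rintro ⟨i, j⟩ h
      simp only [coe_filter, mem_filter, mem_product, mem_range, Set.mem_ofPred_eq, mem_Icc] at h ⊢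
      obtain ⟨⟨⟨hi, hj⟩, h1, h2⟩, h3⟩ := h
      have a1 := (row_col p i j).1 (by omega)
      have c1 := col_succ p j
      have l := row_le p i
      have hr : row p i = j + 1 := by push_cast at h2; omega
      have a2 := (not_congr (row_col p i (j + 1))).1 (by omega)
      refine ⟨⟨by omega, by omega⟩, ?_⟩
      push_cast at h2
      omega
    · intro a h
      simp only [coe_filter, mem_filter, mem_product, mem_range, Set.mem_ofPred_eq, mem_Icc] at h ⊢
      obtain ⟨⟨h1, h2⟩, h3⟩ := h
      obtain ⟨j, rfl⟩ : ∃ j, a = j + 1 := ⟨a - 1, by omega⟩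
      rw [show j + 1 - 1 = j by omega] at *
      have c1 := col_succ p j
      have l := col_le p j
      have r1 := (row_col p (col p j - 2) j).2 (by omega)
      have r2 := (not_congr (row_col p (col p j - 2) (j + 1))).2 (by omega)
      have r3 : row p (col p j - 2) = j + 1 := by omega
      refine ⟨⟨⟨by omega, by omega⟩, by omega, ?_⟩, by omega⟩
      rw [r3]; push_cast
      have : ((col p j - 2 : ℕ) : ℤ) = col p j - 2 := by
        rw [Nat.cast_sub (by omega)]; simp
      rw [this]; ring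
    · rintro ⟨i, j⟩ h
      simp only [coe_filter, mem_filter, mem_product, mem_range, Set.mem_ofPred_eq, mem_Icc] at h ⊢
      obtain ⟨⟨⟨hi, hj⟩, h1, h2⟩, h3⟩ := h
      have a1 := (row_col p i j).1 (by omega)
      have hr : row p i = j + 1 := by push_cast at h2; omega
      push_cast at h2
      rw [show j + 1 - 1 = j by omega]
      rw [show col p j = i + 2 by omega]
      simp
    · intro a h
      simp only [coe_filter, mem_filter, mem_product, mem_range, Set.mem_ofPred_eq, mem_Icc] at h ⊢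
      omega

end shape

section counting

/-- the number of partitions of `n` all of whose parts satisfy `Q` -/
def N (Q : ℕ → Prop) [DecidablePred Q] (n : ℕ) : ℕ := #(Nat.Partition.restricted n Q)

variable (Q : ℕ → Prop) [DecidablePred Q]

lemma card_contains (n : ℕ) (s : Multiset ℕ) (hs : ∀ x ∈ s, 0 < x ∧ Q x) :
    #{p ∈ Nat.Partition.restricted n Q | s ≤ p.parts} =
      if s.sum ≤ n then N Q (n - s.sum) else 0 := by
  split_ifs with h
  · unfold N
    refine Finset.card_bij'
      (fun p hp => (⟨p.parts - s, fun hi => p.parts_pos (Multiset.mem_of_le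
        (Multiset.sub_le_self _ _) hi), ?_⟩ : (n - s.sum).Partition))
      (fun q _ => (⟨q.parts + s, fun {i} hi => ?_, ?_⟩ : n.Partition)) ?_ ?_ ?_ ?_
    · rw [mem_filter] at hp
      have h1 : (p.parts - s).sum + s.sum = n := by
        rw [← Multiset.sum_add, Multiset.sub_add_cancel hp.2, p.parts_sum]
      omega
    · rw [Multiset.mem_add] at hi
      rcases hi with hi | hi
      · exact q.parts_pos hi
      · exact (hs i hi).1
    · rw [Multiset.sum_add, q.parts_sum]; omega
    · intro p hp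
      simp only [Nat.Partition.restricted, mem_filter, mem_univ, true_and] at hp ⊢
      intro i hi
      exact hp.1 i (Multiset.mem_of_le (Multiset.sub_le_self _ _) hi)
    · intro q hq
      simp only [Nat.Partition.restricted, mem_filter, mem_univ, true_and] at hq ⊢
      refine ⟨fun i hi => ?_, Multiset.le_add_left _ _⟩
      rw [Multiset.mem_add] at hi
      rcases hi with hi | hi
      · exact hq i hi
      · exact (hs i hi).2
    · intro p hp
      rw [mem_filter] at hp
      ext1
      exact Multiset.sub_add_cancel hp.2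
    · intro q hq
      ext1
      exact Multiset.add_sub_cancel_right
  · rw [Finset.card_eq_zero, Finset.filter_eq_empty_iff]
    intro p hp hsp
    apply h
    rw [← p.parts_sum]
    obtain ⟨u, hu⟩ := Multiset.le_iff_exists_add.1 hsp
    rw [hu, Multiset.sum_add]
    omega

/-- the generating function of the partitions all of whose parts satisfy `Q` -/
noncomputable def P : ℤ⟦X⟧ := PowerSeries.mk fun n => (N Q n : ℤ)

/-- all coefficients are nonnegative -/
def NN (f : ℤ⟦X⟧) : Prop := ∀ n, 0 ≤ coeff n f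

lemma NN.add {f g : ℤ⟦X⟧} (hf : NN f) (hg : NN g) : NN (f + g) := by
  intro n
  rw [map_add]
  exact add_nonneg (hf n) (hg n)

lemma NN.mul {f g : ℤ⟦X⟧} (hf : NN f) (hg : NN g) : NN (f * g) := by
  intro n
  rw [coeff_mul]
  exact Finset.sum_nonneg fun p _ => mul_nonneg (hf _) (hg _)

lemma NN.X_pow (m : ℕ) : NN (X ^ m) := by
  intro n
  rw [coeff_X_pow]
  split_ifs <;> simp

lemma NN.sum {ι : Type} (s : Finset ι) {f : ι → ℤ⟦X⟧} (hf : ∀ i ∈ s, NN (f i)) :
    NN (∑ i ∈ s, f i) := by
  intro n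
  rw [map_sum]
  exact Finset.sum_nonneg fun i hi => hf i hi n

lemma NN_P : NN (P Q) := by
  intro n
  rw [P, coeff_mk]
  positivity

lemma P_cut (a : ℕ) (ha : 0 < a) (hQ : Q a) :
    (1 - X ^ a) * P Q = P (fun x => Q x ∧ x ≠ a) := by
  ext n
  rw [sub_mul, one_mul, map_sub, coeff_X_pow_mul']
  unfold P
  simp only [coeff_mk]
  have h := card_contains Q n {a} (by
    intro x hx
    rw [Multiset.mem_singleton] at hx
    subst hx
    exact ⟨ha, hQ⟩)
  have h2 := Finset.card_filter_add_card_filter_not (s := Nat.Partition.restricted n Q)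
    (fun p => ({a} : Multiset ℕ) ≤ p.parts)
  have h3 : N (fun x => Q x ∧ x ≠ a) n =
      #{p ∈ Nat.Partition.restricted n Q | ¬ ({a} : Multiset ℕ) ≤ p.parts} := by
    unfold N
    congr 1
    ext p
    simp only [Nat.Partition.restricted, mem_filter, mem_univ, true_and,
      Multiset.singleton_le]
    constructor
    · intro h
      exact ⟨fun i hi => (h i hi).1, fun ha => (h a ha).2 rfl⟩
    · rintro ⟨h1, h2⟩ i hi
      exact ⟨h1 i hi, fun e => h2 (e ▸ hi)⟩
  rw [h3]
  have h4 : N Q n = #(Nat.Partition.restricted n Q) := rfl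
  rw [h4, ← h2, h, Multiset.sum_singleton]
  split_ifs <;> push_cast <;> ring

end counting

section monotone

/-- the generating function of the `t`-regular partitions -/
noncomputable def R (t : ℕ) : ℤ⟦X⟧ := P (fun x => ¬ t ∣ x)

lemma NN_diff (t : ℕ) (ht : 0 < t) : NN (R (t + 1) - R t) := by
  intro n
  rw [map_sub]
  unfold R P N
  rw [coeff_mk, coeff_mk, Nat.Partition.card_restricted_eq_card_countRestricted n (by omega : 0 < t + 1),
    Nat.Partition.card_restricted_eq_card_countRestricted n ht, sub_nonneg, Nat.cast_le]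
  apply Finset.card_le_card
  intro p
  simp only [Nat.Partition.countRestricted, mem_filter, mem_univ, true_and]
  intro h i hi
  have := h i hi
  omega

/-- the summand of `E_t` -/
noncomputable def e (t i : ℕ) : ℤ⟦X⟧ :=
  X ^ (t * (2 * i + 1)) + 2 * X ^ (2 * t * (i + 1)) - X ^ (2 * t * (i + 1) - 1) -
    X ^ (2 * t * (i + 1) + 1)

lemma e_sub (t i : ℕ) (ht : 0 < t) : e t i - e (t + 1) i =
    X ^ (t * (2 * i + 1)) * (1 - X) * ((∑ l ∈ range (2 * i + 1), X ^ l) -
      X ^ (t - 1) * (1 - X) * (1 - X ^ (2 * i + 2))) := by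
  have h := mul_neg_geom_sum (X : ℤ⟦X⟧) (2 * i + 1)
  unfold e
  obtain ⟨s, rfl⟩ : ∃ s, t = s + 1 := ⟨t - 1, by omega⟩
  have e1 : 2 * (s + 1) * (i + 1) - 1 = (s + 1) * (2 * i + 1) + s := by
    rw [Nat.sub_eq_iff_eq_add (Nat.succ_le_of_lt (by positivity))]; ring
  have e2 : 2 * (s + 1 + 1) * (i + 1) - 1 = (s + 1) * (2 * i + 1) + s + (2 * i + 2) := by
    rw [Nat.sub_eq_iff_eq_add (Nat.succ_le_of_lt (by positivity))]; ring
  have e3 : 2 * (s + 1) * (i + 1) = (s + 1) * (2 * i + 1) + s + 1 := by ring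
  have e4 : 2 * (s + 1 + 1) * (i + 1) = (s + 1) * (2 * i + 1) + s + 1 + (2 * i + 2) := by ring
  have e5 : (s + 1 + 1) * (2 * i + 1) = (s + 1) * (2 * i + 1) + (2 * i + 1) := by ring
  rw [e1, e2, e3, e4, e5, show s + 1 - 1 = s by omega]
  generalize (s + 1) * (2 * i + 1) = m
  have h' : X ^ m * (1 - X) * ((∑ l ∈ range (2 * i + 1), (X : ℤ⟦X⟧) ^ l) -
      X ^ s * (1 - X) * (1 - X ^ (2 * i + 2))) = X ^ m * ((1 - X ^ (2 * i + 1)) -
      X ^ s * (1 - X) ^ 2 * (1 - X ^ (2 * i + 2))) := by
    rw [← h]; ring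
  rw [h']
  simp only [pow_add, pow_one]
  ring

lemma NN_step (t s i : ℕ) (ht : 3 ≤ t) (hs : s = t ∨ s = t + 1) :
    NN (R s * (e t i - e (t + 1) i)) := by
  rw [e_sub t i (by omega)]
  have d1 : ¬ s ∣ 1 := by
    intro h; have := Nat.le_of_dvd (by omega) h; omega
  have d2 : ¬ s ∣ 2 := by
    intro h; have := Nat.le_of_dvd (by omega) h; omega
  have d3 : ¬ s ∣ t - 1 := by
    intro h; have := Nat.le_of_dvd (by omega) h; omega
  set T : ℤ⟦X⟧ := (1 - X ^ 1) * R s with hT
  have hT1 : T = P (fun x => ¬ s ∣ x ∧ x ≠ 1) := P_cut _ 1 (by omega) d1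
  have n1 : NN T := by rw [hT1]; exact NN_P _
  have n2 : NN ((1 - X ^ 2) * T) := by
    rw [hT1, P_cut _ 2 (by omega) ⟨d2, by omega⟩]; exact NN_P _
  have n3 : NN ((1 - X ^ (t - 1)) * T) := by
    rw [hT1, P_cut _ (t - 1) (by omega) ⟨d3, by omega⟩]; exact NN_P _
  have n4 : NN ((1 - X ^ (2 * i + 2)) * T) := by
    have h := mul_neg_geom_sum ((X : ℤ⟦X⟧) ^ 2) (i + 1)
    have h' : (1 - X ^ (2 * i + 2)) * T = (∑ l ∈ range (i + 1), (X ^ 2) ^ l) *
        ((1 - X ^ 2) * T) := by
      rw [show (X : ℤ⟦X⟧) ^ (2 * i + 2) = (X ^ 2) ^ (i + 1) by rw [← pow_mul]; ring_nf, ← h]; ring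
    rw [h']
    refine NN.mul (NN.sum _ fun l _ => ?_) n2
    rw [← pow_mul]
    exact NN.X_pow _
  have key : R s * (X ^ (t * (2 * i + 1)) * (1 - X) * ((∑ l ∈ range (2 * i + 1), X ^ l) -
      X ^ (t - 1) * (1 - X) * (1 - X ^ (2 * i + 2)))) =
      X ^ (t * (2 * i + 1)) * ((∑ l ∈ range (2 * i), X ^ (l + 1)) * T + (1 - X ^ (t - 1)) * T +
        X ^ (t - 1) * X ^ (2 * i + 2) * T + X ^ (t - 1) * X ^ 1 * ((1 - X ^ (2 * i + 2)) * T)) := by
    rw [Finset.sum_range_succ', hT]
    ring
  rw [key]
  refine NN.mul (NN.X_pow _) (NN.add (NN.add (NN.add ?_ n3) ?_) ?_)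
  · exact NN.mul (NN.sum _ fun l _ => NN.X_pow _) n1
  · exact NN.mul (NN.mul (NN.X_pow _) (NN.X_pow _)) n1
  · exact NN.mul (NN.mul (NN.X_pow _) (NN.X_pow _)) n4

/-- the coefficients of the second factor -/
def c (t m : ℕ) : ℤ :=
  (if 2 ≤ m ∧ ¬ t ∣ m then 1 else 0)
    - (if m % 2 = 1 ∧ 3 ≤ m ∧ ¬ t ∣ (m + 1) / 2 ∧ ¬ t ∣ m / 2 then 1 else 0)
    + (if m % 2 = 0 ∧ 0 < m ∧ ¬ t ∣ m / 2 then 1 else 0)

lemma c_nonneg (t m : ℕ) (ht : t % 2 = 0) : 0 ≤ c t m := by
  unfold c
  by_cases hm : m % 2 = 1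
  · have h1 : ¬ t ∣ m := by
      rintro ⟨k, rfl⟩
      rw [Nat.mul_mod, ht] at hm
      simp at hm
    by_cases h2 : 2 ≤ m
    · rw [if_pos ⟨h2, h1⟩]
      split_ifs <;> norm_num
    · rw [if_neg (by tauto), if_neg (by intro h; omega), if_neg (by omega)]; norm_num
  · rw [if_neg (c := m % 2 = 1 ∧ _) (by tauto)]
    split_ifs <;> norm_num

lemma sum_ind (d M m : ℕ) (hd : 0 < d) (hm : m < M) :
    (∑ i ∈ range M, if m = d * (i + 1) then (1 : ℤ) else 0) = if d ∣ m ∧ 0 < m then 1 else 0 := by
  split_ifs with h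
  · obtain ⟨⟨k, rfl⟩, h2⟩ := h
    have hk : 0 < k := Nat.pos_of_ne_zero (by rintro rfl; simp at h2)
    rw [Finset.sum_eq_single (k - 1)]
    · rw [if_pos]; rw [Nat.sub_add_cancel hk]
    · intro i _ hi
      rw [if_neg]
      intro h
      have := Nat.eq_of_mul_eq_mul_left hd h
      omega
    · intro h
      exfalso
      apply h
      rw [mem_range]
      have : k ≤ d * k := Nat.le_mul_of_pos_left k hd
      omega
  · apply Finset.sum_eq_zero
    intro i _
    rw [if_neg]
    intro h'
    exact h ⟨⟨_, h'⟩, by rw [h']; positivity⟩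

lemma sum_ind_odd (d M m : ℕ) (hd : 0 < d) (hm : m < M) :
    (∑ i ∈ range M, if m = d * (2 * i + 1) then (1 : ℤ) else 0) =
      if d ∣ m ∧ m / d % 2 = 1 then 1 else 0 := by
  split_ifs with h
  · obtain ⟨⟨k, rfl⟩, h2⟩ := h
    rw [Nat.mul_div_cancel_left k hd] at h2
    rw [Finset.sum_eq_single (k / 2)]
    · rw [if_pos]; congr 1; omega
    · intro i _ hi
      rw [if_neg]
      intro h
      have := Nat.eq_of_mul_eq_mul_left hd h
      omega
    · intro h
      exfalso
      apply h
      rw [mem_range]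
      have : k ≤ d * k := Nat.le_mul_of_pos_left k hd
      omega
  · apply Finset.sum_eq_zero
    intro i _
    rw [if_neg]
    intro h'
    apply h
    rw [h', Nat.mul_div_cancel_left _ hd]
    exact ⟨⟨_, rfl⟩, by omega⟩

/-- up to the index `M` the second factor is `2 ∑ X ^ (2 j)` minus the sum of the `e t i` -/
lemma coeff_c (t M m : ℕ) (ht : 2 ≤ t) (hm : m < M) :
    c t m = (if 2 ∣ m ∧ 0 < m then 2 else 0) - coeff m (∑ i ∈ range M, e t i) := by
  have hE : coeff m (∑ i ∈ range M, e t i) =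
      (∑ i ∈ range M, if m = t * (2 * i + 1) then (1 : ℤ) else 0) +
      2 * (∑ i ∈ range M, if m = 2 * t * (i + 1) then (1 : ℤ) else 0) -
      (∑ i ∈ range M, if m + 1 = 2 * t * (i + 1) then (1 : ℤ) else 0) -
      (∑ i ∈ range M, if m = 2 * t * (i + 1) + 1 then (1 : ℤ) else 0) := by
    rw [map_sum, Finset.mul_sum, ← Finset.sum_add_distrib, ← Finset.sum_sub_distrib,
      ← Finset.sum_sub_distrib]
    refine Finset.sum_congr rfl fun i _ => ?_
    have h1 : 1 ≤ 2 * t * (i + 1) := Nat.succ_le_of_lt (by positivity)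
    unfold e
    rw [show (2 : ℤ⟦X⟧) * X ^ (2 * t * (i + 1)) = X ^ (2 * t * (i + 1)) + X ^ (2 * t * (i + 1)) by
      ring]
    simp only [map_sub, map_add, coeff_X_pow]
    congr 1
    congr 1
    · ring
    · congr 1
      exact propext (by omega)
  have h3 : (∑ i ∈ range M, if m + 1 = 2 * t * (i + 1) then (1 : ℤ) else 0) =
      if 2 * t ∣ m + 1 then 1 else 0 := by
    have h := sum_ind (2 * t) (M + 1) (m + 1) (by omega) (by omega)
    rw [Finset.sum_range_succ, if_neg (c := m + 1 = 2 * t * (M + 1)), add_zero] at h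
    · rw [h]
      congr 1
      exact propext (by constructor <;> intro h <;> [exact h.1; exact ⟨h, by omega⟩])
    · intro h'
      have : M + 1 ≤ 2 * t * (M + 1) := Nat.le_mul_of_pos_left _ (by omega)
      omega
  have h4 : (∑ i ∈ range M, if m = 2 * t * (i + 1) + 1 then (1 : ℤ) else 0) =
      if 2 * t ∣ m - 1 ∧ 0 < m - 1 then 1 else 0 := by
    rw [← sum_ind (2 * t) M (m - 1) (by omega) (by omega)]
    refine Finset.sum_congr rfl fun i _ => ?_
    have h1 : 1 ≤ 2 * t * (i + 1) := Nat.succ_le_of_lt (by positivity)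
    congr 1
    exact propext (by omega)
  rw [hE, sum_ind_odd t M m (by omega) hm, sum_ind (2 * t) M m (by omega) hm, h3, h4]
  unfold c
  rcases Nat.even_or_odd' m with ⟨h, rfl | rfl⟩
  · -- even
    have q1 : 2 * h / 2 = h := by omega
    have q2 : 2 * t ∣ 2 * h ↔ t ∣ h := Nat.mul_dvd_mul_iff_left (by omega)
    have q3 : ¬ 2 * t ∣ 2 * h + 1 := by
      intro h'
      have := (Dvd.intro t rfl : 2 ∣ 2 * t).trans h'
      omega
    have q4 : ¬ (2 * t ∣ 2 * h - 1 ∧ 0 < 2 * h - 1) := by
      rintro ⟨h', h''⟩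
      have := (Dvd.intro t rfl : 2 ∣ 2 * t).trans h'
      omega
    rw [q1, if_neg q3, if_neg q4, if_neg (c := 2 * h % 2 = 1 ∧ _) (by omega)]
    simp only [q2]
    by_cases h0 : h = 0
    · subst h0; simp
    by_cases a : t ∣ h
    · have a' : t ∣ 2 * h := a.mul_left 2
      have a'' : ¬ (2 * h / t % 2 = 1) := by
        rw [Nat.mul_div_assoc 2 a]; omega
      simp [a, a', a'']
    · by_cases a' : t ∣ 2 * h
      · have a'' : 2 * h / t % 2 = 1 := by
          obtain ⟨k, hk⟩ := a'
          rw [hk, Nat.mul_div_cancel_left k (by omega)]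
          by_contra h2
          apply a
          exact ⟨k / 2, by
            have : k = 2 * (k / 2) := by omega
            rw [this] at hk
            nlinarith⟩
        simp [a, a', a'']
        omega
      · have : 2 ≤ 2 * h := by omega
        simp [a, a', this]
        omega
  · -- odd
    have q1 : (2 * h + 1 + 1) / 2 = h + 1 := by omega
    have q1' : (2 * h + 1) / 2 = h := by omega
    have q2 : 2 * t ∣ 2 * h + 1 + 1 ↔ t ∣ h + 1 := by
      rw [show 2 * h + 1 + 1 = 2 * (h + 1) by ring]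
      exact Nat.mul_dvd_mul_iff_left (by omega)
    have q3 : ¬ (2 * t ∣ 2 * h + 1 ∧ 0 < 2 * h + 1) := by
      rintro ⟨h', h''⟩
      have := (Dvd.intro t rfl : 2 ∣ 2 * t).trans h'
      omega
    have q4 : (2 * t ∣ 2 * h + 1 - 1 ∧ 0 < 2 * h + 1 - 1) ↔ (t ∣ h ∧ 0 < h) := by
      rw [show 2 * h + 1 - 1 = 2 * h by omega, Nat.mul_dvd_mul_iff_left (by omega)]
      exact and_congr_right fun _ => by omega
    have q5 : ¬ (2 ∣ 2 * h + 1 ∧ 0 < 2 * h + 1) := by omega
    have q6 : (t ∣ 2 * h + 1 ∧ (2 * h + 1) / t % 2 = 1) ↔ t ∣ 2 * h + 1 := by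
      constructor
      · exact fun h => h.1
      · intro h'
        refine ⟨h', ?_⟩
        obtain ⟨k, hk⟩ := h'
        rw [hk, Nat.mul_div_cancel_left k (by omega)]
        by_contra h2
        have : 2 ∣ t * k := (by omega : 2 ∣ k).mul_left t
        omega
    have q7 : ¬ (t ∣ h ∧ t ∣ h + 1) := by
      rintro ⟨h1, h2⟩
      have := (Nat.dvd_add_right h1).1 h2
      have := Nat.le_of_dvd (by omega) this
      omega
    rw [q1, q1', if_neg q3, if_neg q5, if_neg (c := (2 * h + 1) % 2 = 0 ∧ _) (by omega)]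
    simp only [q2, q4, q6]
    by_cases h0 : h = 0
    · subst h0
      have z1 : ¬ t ∣ 1 := by
        intro h; have := Nat.le_of_dvd (by omega) h; omega
      simp [z1]
    have z : 2 ≤ 2 * h + 1 := by omega
    have z' : 3 ≤ 2 * h + 1 := by omega
    have z'' : (2 * h + 1) % 2 = 1 := by omega
    have z3 : 0 < h := by omega
    simp only [z, z', z'', z3, true_and, and_true]
    by_cases a1 : t ∣ h <;> by_cases a2 : t ∣ h + 1 <;> by_cases a3 : t ∣ 2 * h + 1 <;>
      simp [a1, a2, a3] <;> tauto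

/-- `X`-adic comparison -/
lemma coeff_mul_congr (f A B : ℤ⟦X⟧) (n : ℕ) (h : ∀ m ≤ n, coeff m A = coeff m B) :
    coeff n (f * A) = coeff n (f * B) := by
  rw [coeff_mul, coeff_mul]
  refine Finset.sum_congr rfl fun p hp => ?_
  rw [h p.2 (by rw [HasAntidiagonal.mem_antidiagonal] at hp; omega)]

/-- the second factor of the generating function -/
noncomputable def C (t : ℕ) : ℤ⟦X⟧ := PowerSeries.mk (c t)

lemma diff_nonneg (t s n : ℕ) (ht : 3 ≤ t) (hs : s = t ∨ s = t + 1) :
    0 ≤ coeff n (R s * (C (t + 1) - C t)) := by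
  rw [coeff_mul_congr (R s) (C (t + 1) - C t) (∑ i ∈ range (n + 1), (e t i - e (t + 1) i)) n]
  · rw [Finset.mul_sum]
    exact NN.sum _ (fun i _ => NN_step t s i ht hs) n
  · intro m hm
    rw [map_sub, C, C, coeff_mk, coeff_mk, coeff_c (t + 1) (n + 1) m (by omega) (by omega),
      coeff_c t (n + 1) m (by omega) (by omega), Finset.sum_sub_distrib, map_sub]
    ring

lemma gen_monotone (t n : ℕ) (ht : 3 ≤ t) : coeff n (R t * C t) ≤ coeff n (R (t + 1) * C (t + 1)) := by
  rcases Nat.even_or_odd t with h | h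
  · have h1 : R (t + 1) * C (t + 1) - R t * C t =
        (R (t + 1) - R t) * C t + R (t + 1) * (C (t + 1) - C t) := by ring
    have h2 := diff_nonneg t (t + 1) n ht (Or.inr rfl)
    have h3 : NN (C t) := fun m => by
      rw [C, coeff_mk]; exact c_nonneg t m (Nat.even_iff.1 h)
    have h4 := NN.mul (NN_diff t (by omega)) h3 n
    rw [← sub_nonneg, ← map_sub, h1, map_add]
    exact add_nonneg h4 h2
  · have h1 : R (t + 1) * C (t + 1) - R t * C t =
        (R (t + 1) - R t) * C (t + 1) + R t * (C (t + 1) - C t) := by ring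
    have h2 := diff_nonneg t t n ht (Or.inl rfl)
    have h3 : NN (C (t + 1)) := fun m => by
      rw [C, coeff_mk]; exact c_nonneg (t + 1) m (by have := Nat.odd_iff.1 h; omega)
    have h4 := NN.mul (NN_diff t (by omega)) h3 n
    rw [← sub_nonneg, ← map_sub, h1, map_add]
    exact add_nonneg h4 h2

end monotone

section assemble

variable (t n : ℕ)

lemma count_one (a : ℕ) (ha : 0 < a) :
    #{p ∈ Nat.Partition.restricted n (fun x => ¬ t ∣ x) | a ∈ p.parts} =
      if ¬ t ∣ a then (if a ≤ n then N (fun x => ¬ t ∣ x) (n - a) else 0) else 0 := by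
  by_cases h : ¬ t ∣ a
  · rw [if_pos h]
    have := card_contains (fun x => ¬ t ∣ x) n {a} (by
      intro x hx; rw [Multiset.mem_singleton] at hx; subst hx; exact ⟨ha, h⟩)
    rw [Multiset.sum_singleton] at this
    rw [← this]
    simp only [Multiset.singleton_le]
  · rw [if_neg h, Finset.card_eq_zero, Finset.filter_eq_empty_iff]
    intro p hp hap
    simp only [Nat.Partition.restricted, mem_filter, mem_univ, true_and] at hp
    exact h (hp a hap)

lemma count_pair (a : ℕ) (ha : 2 ≤ a) :
    #{p ∈ Nat.Partition.restricted n (fun x => ¬ t ∣ x) | a ∈ p.parts ∧ a - 1 ∈ p.parts} =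
      if ¬ t ∣ a ∧ ¬ t ∣ a - 1 then
        (if 2 * a - 1 ≤ n then N (fun x => ¬ t ∣ x) (n - (2 * a - 1)) else 0) else 0 := by
  have hle : ∀ p : n.Partition, (a ∈ p.parts ∧ a - 1 ∈ p.parts) ↔
      ({a, a - 1} : Multiset ℕ) ≤ p.parts := by
    intro p
    have : a ≠ a - 1 := by omega
    rw [Multiset.le_iff_subset (by simp [this])]
    simp [Multiset.insert_eq_cons, Multiset.cons_subset]
  by_cases h : ¬ t ∣ a ∧ ¬ t ∣ a - 1
  · rw [if_pos h]
    have := card_contains (fun x => ¬ t ∣ x) n {a, a - 1} (by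
      intro x hx
      simp only [Multiset.insert_eq_cons, Multiset.mem_cons, Multiset.mem_singleton] at hx
      rcases hx with rfl | rfl
      · exact ⟨by omega, h.1⟩
      · exact ⟨by omega, h.2⟩)
    rw [show ({a, a - 1} : Multiset ℕ).sum = 2 * a - 1 by
      simp [Multiset.insert_eq_cons]; omega] at this
    rw [← this]
    simp only [hle]
  · rw [if_neg h, Finset.card_eq_zero, Finset.filter_eq_empty_iff]
    rintro p hp ⟨h1, h2⟩
    simp only [Nat.Partition.restricted, mem_filter, mem_univ, true_and] at hp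
    exact h ⟨hp a h1, hp _ h2⟩

lemma count_twice (a : ℕ) (ha : 0 < a) :
    #{p ∈ Nat.Partition.restricted n (fun x => ¬ t ∣ x) | 2 ≤ p.parts.count a} =
      if ¬ t ∣ a then (if 2 * a ≤ n then N (fun x => ¬ t ∣ x) (n - 2 * a) else 0) else 0 := by
  have hle : ∀ p : n.Partition, 2 ≤ p.parts.count a ↔
      (Multiset.replicate 2 a : Multiset ℕ) ≤ p.parts := by
    intro p
    rw [Multiset.le_count_iff_replicate_le]
  by_cases h : ¬ t ∣ a
  · rw [if_pos h]
    have := card_contains (fun x => ¬ t ∣ x) n (Multiset.replicate 2 a) (by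
      intro x hx
      rw [Multiset.mem_replicate] at hx
      rw [hx.2]
      exact ⟨ha, h⟩)
    rw [Multiset.sum_replicate, smul_eq_mul] at this
    rw [← this]
    simp only [hle]
  · rw [if_neg h, Finset.card_eq_zero, Finset.filter_eq_empty_iff]
    intro p hp h1
    simp only [Nat.Partition.restricted, mem_filter, mem_univ, true_and] at hp
    exact h (hp a (Multiset.count_pos.1 (by omega)))

lemma swap_sum (S : Finset ℕ) (T : Finset n.Partition) (q : n.Partition → ℕ → Prop)
    [∀ p a, Decidable (q p a)] :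
    ∑ p ∈ T, #{a ∈ S | q p a} = ∑ a ∈ S, #{p ∈ T | q p a} := by
  simp only [Finset.card_filter]
  exact Finset.sum_comm

lemma b_eq : (b t 2 n : ℤ) = coeff n (R t * C t) := by
  set r : ℕ → ℤ := fun m => (N (fun x => ¬ t ∣ x) m : ℤ) with hr
  set T := Nat.Partition.restricted n (fun x => ¬ t ∣ x) with hT
  -- the three sums
  have hb : b t 2 n + ∑ a ∈ Icc 2 n, #{p ∈ T | a ∈ p.parts ∧ a - 1 ∈ p.parts} =
      ∑ a ∈ Icc 2 n, #{p ∈ T | a ∈ p.parts} + ∑ a ∈ Icc 1 n, #{p ∈ T | 2 ≤ p.parts.count a} := by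
    rw [← swap_sum, ← swap_sum, ← swap_sum, b, ← Finset.sum_add_distrib, ← Finset.sum_add_distrib]
    refine Finset.sum_congr rfl fun p _ => ?_
    rw [hookCount_two]
    have h := Finset.card_filter_add_card_filter_not (s := {a ∈ Icc 2 n | a ∈ p.parts})
      (fun a => a - 1 ∈ p.parts)
    rw [Finset.filter_filter, Finset.filter_filter] at h
    omega
  have e1 : ((∑ a ∈ Icc 2 n, #{p ∈ T | a ∈ p.parts} : ℕ) : ℤ) =
      ∑ m ∈ range (n + 1), (if 2 ≤ m ∧ ¬ t ∣ m then 1 else 0) * r (n - m) := by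
    rw [Finset.sum_congr rfl fun a ha => count_one t n a (by rw [mem_Icc] at ha; omega)]
    push_cast
    simp only [ite_mul, one_mul, zero_mul]
    rw [← Finset.sum_filter, ← Finset.sum_filter]
    refine Finset.sum_congr_of_eq_on_inter ?_ ?_ ?_
    · intro a h1 h2
      simp only [mem_filter, mem_Icc, mem_range] at h1 h2
      omega
    · intro a h1 h2
      simp only [mem_filter, mem_Icc, mem_range] at h1 h2
      rw [if_neg]
      rintro ⟨h3, h4⟩
      exact h2 ⟨⟨⟨h3, by omega⟩, h4⟩, by omega⟩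
    · intro a h1 h2
      simp only [mem_filter, mem_Icc, mem_range] at h1 h2
      rw [if_pos (by omega)]
  have e2 : ((∑ a ∈ Icc 2 n, #{p ∈ T | a ∈ p.parts ∧ a - 1 ∈ p.parts} : ℕ) : ℤ) =
      ∑ m ∈ range (n + 1), (if m % 2 = 1 ∧ 3 ≤ m ∧ ¬ t ∣ (m + 1) / 2 ∧ ¬ t ∣ m / 2 then 1 else 0) *
        r (n - m) := by
    rw [Finset.sum_congr rfl fun a ha => count_pair t n a (by rw [mem_Icc] at ha; omega)]
    push_cast
    simp only [ite_mul, one_mul, zero_mul]
    rw [← Finset.sum_filter, ← Finset.sum_filter, ← Finset.sum_filter]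
    refine Finset.sum_nbij' (fun a => 2 * a - 1) (fun m => (m + 1) / 2) ?_ ?_ ?_ ?_ ?_
    · intro a ha
      simp only [mem_filter, mem_Icc, mem_range] at ha ⊢
      rw [show (2 * a - 1 + 1) / 2 = a by omega, show (2 * a - 1) / 2 = a - 1 by omega]
      exact ⟨by omega, by omega, by omega, ha.1.2.1, ha.1.2.2⟩
    · intro m hm
      simp only [mem_filter, mem_Icc, mem_range] at hm ⊢
      rw [show (m + 1) / 2 - 1 = m / 2 by omega]
      exact ⟨⟨⟨by omega, by omega⟩, hm.2.2.2.1, hm.2.2.2.2⟩, by omega⟩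
    · intro a ha
      simp only [mem_filter, mem_Icc] at ha
      omega
    · intro m hm
      simp only [mem_filter, mem_range] at hm
      omega
    · intro a ha
      rfl
  have e3 : ((∑ a ∈ Icc 1 n, #{p ∈ T | 2 ≤ p.parts.count a} : ℕ) : ℤ) =
      ∑ m ∈ range (n + 1), (if m % 2 = 0 ∧ 0 < m ∧ ¬ t ∣ m / 2 then 1 else 0) *
        r (n - m) := by
    rw [Finset.sum_congr rfl fun a ha => count_twice t n a (by rw [mem_Icc] at ha; omega)]
    push_cast
    simp only [ite_mul, one_mul, zero_mul]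
    rw [← Finset.sum_filter, ← Finset.sum_filter, ← Finset.sum_filter]
    refine Finset.sum_nbij' (fun a => 2 * a) (fun m => m / 2) ?_ ?_ ?_ ?_ ?_
    · intro a ha
      simp only [mem_filter, mem_Icc, mem_range] at ha ⊢
      rw [show (2 * a) / 2 = a by omega]
      exact ⟨by omega, by omega, by omega, ha.1.2⟩
    · intro m hm
      simp only [mem_filter, mem_Icc, mem_range] at hm ⊢
      exact ⟨⟨⟨by omega, by omega⟩, hm.2.2.2⟩, by omega⟩
    · intro a ha
      simp only [mem_filter, mem_Icc] at ha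
      omega
    · intro m hm
      simp only [mem_filter, mem_range] at hm
      omega
    · intro a ha
      rfl
  have hb' : (b t 2 n : ℤ) = ∑ m ∈ range (n + 1), c t m * r (n - m) := by
    have h : (b t 2 n : ℤ) + ((∑ a ∈ Icc 2 n, #{p ∈ T | a ∈ p.parts ∧ a - 1 ∈ p.parts} : ℕ) : ℤ) =
      ((∑ a ∈ Icc 2 n, #{p ∈ T | a ∈ p.parts} : ℕ) : ℤ) +
      ((∑ a ∈ Icc 1 n, #{p ∈ T | 2 ≤ p.parts.count a} : ℕ) : ℤ) := by exact_mod_cast hb
    rw [e1, e2, e3] at h
    have h' : ∑ m ∈ range (n + 1), c t m * r (n - m) =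
        ∑ m ∈ range (n + 1), (if 2 ≤ m ∧ ¬ t ∣ m then 1 else 0) * r (n - m) -
        ∑ m ∈ range (n + 1), (if m % 2 = 1 ∧ 3 ≤ m ∧ ¬ t ∣ (m + 1) / 2 ∧ ¬ t ∣ m / 2 then 1 else 0) *
          r (n - m) +
        ∑ m ∈ range (n + 1), (if m % 2 = 0 ∧ 0 < m ∧ ¬ t ∣ m / 2 then 1 else 0) * r (n - m) := by
      rw [← Finset.sum_sub_distrib, ← Finset.sum_add_distrib]
      refine Finset.sum_congr rfl fun m _ => ?_
      unfold c
      ring
    rw [h']
    linarith
  rw [hb', mul_comm, coeff_mul, Finset.Nat.sum_antidiagonal_eq_sum_range_succ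
    (fun i j => coeff i (C t) * coeff j (R t)) n]
  refine Finset.sum_congr rfl fun m _ => ?_
  rw [C, R, P, coeff_mk, coeff_mk]

end assemble

/-- **Main theorem**: for all `t ≥ 3` and `n ≥ 0`, the total number of hooks of length `2` in the
`(t + 1)`-regular partitions of `n` is at least the one in the `t`-regular partitions of `n`. -/
theorem result : ∀ t n : ℕ, 3 ≤ t → b t 2 n ≤ b (t + 1) 2 n := by
  intro t n ht
  have h := gen_monotone t n ht
  rw [← b_eq, ← b_eq] at h
  exact_mod_cast h

end Pool.Agent.Results.MP_6996b5_co.HookMonotone
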